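import Pool.Agent.Helper6.LF.LDefs
import Pool.Agent.Helper5.D4.App

/-!
NORM: normalisation by a shear with natural coefficients.
-/

open MvPolynomial

namespace LF

universe u

variable {K : Type u} [Field K]

theorem eval_scale {N D : ℕ} {f : Pol K N} (hf : f.IsHomogeneous D) (c : K) (x : Fin N → K) :
    eval (fun v => c * x v) f = c ^ D * eval x f := by
  rw [eval_eq, eval_eq, Finset.mul_sum]
  apply Finset.sum_congr rfl
  intro m hm
  have h1 : ∏ i ∈ m.support, (c * x i) ^ m i = c ^ D * ∏ i ∈ m.support, x i ^ m i := by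
    rw [show (fun i => (c * x i) ^ m i) = fun i => c ^ m i * x i ^ m i from
      funext fun i => mul_pow _ _ _, Finset.prod_mul_distrib, Finset.prod_pow_eq_pow_sum]
    congr 2
    have := hf (mem_support_iff.mp hm)
    rw [Finsupp.weight_apply] at this
    simpa [Finsupp.sum] using this
  rw [h1]
  ring

/-- the line through the origin and `x` -/
noncomputable def lineHom {N : ℕ} (x : Fin N → K) : Pol K N →ₐ[K] Polynomial K :=
  aeval (fun v => Polynomial.C (x v) * Polynomial.X)

theorem coeff_lineHom {N : ℕ} (x : Fin N → K) (f : Pol K N) (D : ℕ) :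
    (lineHom x f).coeff D = eval x (homogeneousComponent D f) := by
  classical
  have hmono : ∀ (m : Fin N →₀ ℕ) (r : K),
      lineHom x (monomial m r) =
        Polynomial.C (eval x (monomial m r)) * Polynomial.X ^ (m.degree) := by
    intro m r
    rw [lineHom, aeval_monomial, Finsupp.prod]
    have h1 : ∀ i, (Polynomial.C (x i) * Polynomial.X) ^ m i =
        Polynomial.C (x i ^ m i) * Polynomial.X ^ (m i) := by
      intro i
      rw [mul_pow, ← Polynomial.C_pow]
    simp only [h1]
    rw [Finset.prod_mul_distrib, Finset.prod_pow_eq_pow_sum, eval_monomial, Finsupp.prod,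
      Polynomial.C_mul, map_prod, Finsupp.degree_apply, Polynomial.algebraMap_eq]
    ring
  conv_lhs => rw [as_sum f, map_sum, Polynomial.finsetSum_coeff]
  rw [homogeneousComponent_apply, map_sum, Finset.sum_filter]
  apply Finset.sum_congr rfl
  intro m _
  rw [hmono, Polynomial.coeff_C_mul, Polynomial.coeff_X_pow]
  by_cases h : m.degree = D
  · simp [h]
  · simp [h, Ne.symm h]

theorem map_fs_shear {n : ℕ} (γ : Fin n → ℕ) (f : Pol K (n + 1)) :
    (fs (shear γ f)).map (eval (fun _ => 0)) =
      lineHom (Fin.cons 1 (fun i => (γ i : K))) f := by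
  have h : (((Polynomial.mapRingHom (eval (fun _ => (0 : K)))).comp
      (finSuccEquiv K n : Pol K (n + 1) →+* Polynomial (Pol K n))).comp
        (shear γ)) = (lineHom (Fin.cons 1 (fun i => (γ i : K))) : Pol K (n + 1) →+* Polynomial K) := by
    apply MvPolynomial.ringHom_ext
    · intro r
      have h0 : shear γ (C r) = (C r : Pol K (n + 1)) := by
        simp [shear]
      have h1 : lineHom (Fin.cons 1 (fun i => (γ i : K))) (C r) = Polynomial.C r := by
        rw [← algebraMap_eq, AlgHom.commutes, Polynomial.algebraMap_eq]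
      simp only [RingHom.comp_apply, RingHom.coe_coe, h0, h1]
      simp [finSuccEquiv_apply]
    · intro v
      refine Fin.cases ?_ (fun v => ?_) v
      · have h0 : shear γ (X 0) = (X 0 : Pol K (n + 1)) := by simp [shear]
        simp only [RingHom.comp_apply, RingHom.coe_coe, h0]
        simp [finSuccEquiv_X_zero, lineHom]
      · have h0 : shear γ (X v.succ) = (X v.succ + C (γ v : K) * X 0 : Pol K (n + 1)) := by
          simp [shear]
        have e1 : finSuccEquiv K n (C (γ v : K)) = Polynomial.C (C (γ v : K)) := by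
          simp [finSuccEquiv_apply]
        simp only [RingHom.comp_apply, RingHom.coe_coe, h0, map_add, map_mul,
          finSuccEquiv_X_zero, finSuccEquiv_X_succ, e1, lineHom, aeval_X, Fin.cons_succ,
          Polynomial.coe_mapRingHom, Polynomial.map_C, Polynomial.map_X, eval_X, eval_C, map_zero,
          zero_add]
  exact congrArg (fun g => g f) h

theorem totalDegree_shear_le {n : ℕ} (γ : Fin n → ℕ) (f : Pol K (n + 1)) :
    (shear γ f).totalDegree ≤ f.totalDegree := by
  refine Pool.Agent.Helper5.D4.totalDegree_aeval_le _ ?_ f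
  intro v
  refine Fin.cases ?_ (fun v => ?_) v
  · rw [Fin.cons_zero, totalDegree_X]
  · rw [Fin.cons_succ]
    refine (totalDegree_add _ _).trans (max_le (totalDegree_X _).le ?_)
    refine (totalDegree_mul _ _).trans ?_
    rw [totalDegree_C, totalDegree_X]

theorem homogeneousComponent_top_ne_zero {N : ℕ} {f : Pol K N} (hf : f ≠ 0) :
    homogeneousComponent f.totalDegree f ≠ 0 := by
  classical
  obtain ⟨m, hm, hmD⟩ := Finset.exists_mem_eq_sup f.support (support_nonempty.mpr hf)
    (fun s => s.sum fun _ e => e)
  intro h0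
  have h1 := coeff_homogeneousComponent (n := f.totalDegree) (φ := f) m
  rw [h0, coeff_zero, if_pos] at h1
  · exact mem_support_iff.mp hm h1.symm
  · rw [Finsupp.degree_apply]
    exact hmD.symm

/-- **NORM** -/
theorem stNorm (K : Type u) [Field K] [CharZero K] : StNorm K := by
  classical
  intro n T hT
  have hprod : (X 0 * ∏ f ∈ T, homogeneousComponent f.totalDegree f : Pol K (n + 1)) ≠ 0 := by
    refine mul_ne_zero (X_ne_zero 0) (Finset.prod_ne_zero_iff.mpr ?_)
    intro f hf
    exact homogeneousComponent_top_ne_zero (hT f hf)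
  have hex : ∃ x, eval x (X 0 * ∏ f ∈ T, homogeneousComponent f.totalDegree f :
      Pol K (n + 1)) ≠ 0 := by
    by_contra hcon
    push Not at hcon
    apply hprod
    apply MvPolynomial.funext
    intro x
    rw [hcon x, map_zero]
  obtain ⟨x, hx⟩ := hex
  rw [map_mul, eval_X] at hx
  have hx0 : x 0 ≠ 0 := left_ne_zero_of_mul hx
  -- dehomogenise
  set dh : Pol K (n + 1) →ₐ[K] Pol K n := aeval (Fin.cons 1 X) with hdh
  have hdh_eval : ∀ (y : Fin n → K) (f : Pol K (n + 1)),
      eval y (dh f) = eval (Fin.cons 1 y) f := by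
    intro y f
    have h : (eval y).comp (dh : Pol K (n + 1) →+* Pol K n) = eval (Fin.cons 1 y) := by
      apply MvPolynomial.ringHom_ext
      · intro r; simp [hdh]
      · intro v
        refine Fin.cases ?_ (fun v => ?_) v <;> simp [hdh]
    exact congrArg (fun g => g f) h
  have hne : dh (∏ f ∈ T, homogeneousComponent f.totalDegree f) ≠ 0 := by
    intro h0
    have h1 := hdh_eval (fun i => (x 0)⁻¹ * x i.succ) (∏ f ∈ T, homogeneousComponent f.totalDegree f)
    rw [h0, map_zero, map_prod] at h1
    have h2 : (Fin.cons 1 (fun i => (x 0)⁻¹ * x i.succ) : Fin (n + 1) → K) =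
        fun v => (x 0)⁻¹ * x v := by
      funext v
      refine Fin.cases ?_ (fun v => ?_) v
      · simp [hx0]
      · simp
    have h3 := right_ne_zero_of_mul hx
    rw [map_prod] at h3
    rw [Finset.prod_ne_zero_iff] at h3
    have h4 := Finset.prod_eq_zero_iff.mp h1.symm
    obtain ⟨f, hf, hf0⟩ := h4
    rw [h2, eval_scale (homogeneousComponent_isHomogeneous _ _)] at hf0
    rcases mul_eq_zero.mp hf0 with h | h
    · exact (pow_ne_zero _ (inv_ne_zero hx0)) h
    · exact h3 f hf h
  have hnat : ∃ γ : Fin n → ℕ, eval (fun i => (γ i : K))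
      (dh (∏ f ∈ T, homogeneousComponent f.totalDegree f)) ≠ 0 := by
    by_contra hcon
    push Not at hcon
    apply hne
    apply MvPolynomial.funext_set (fun _ => Set.range (Nat.cast : ℕ → K))
      (fun _ => Set.infinite_range_of_injective Nat.cast_injective)
    intro y hy
    rw [map_zero]
    choose γ hγ using fun i => hy i (Set.mem_univ i)
    have : y = fun i => (γ i : K) := funext fun i => (hγ i).symm
    rw [this]
    exact hcon γ
  obtain ⟨γ, hγ⟩ := hnat
  rw [hdh_eval, map_prod, Finset.prod_ne_zero_iff] at hγ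
  refine ⟨γ, fun f hf => ?_⟩
  set D := f.totalDegree with hD
  have hcoeffD : (fs (shear γ f)).coeff D ≠ 0 := by
    intro h0
    have h1 := map_fs_shear γ f
    have h2 := coeff_lineHom (Fin.cons 1 (fun i => (γ i : K))) f D
    rw [← h1, Polynomial.coeff_map, h0, map_zero] at h2
    exact hγ f hf h2.symm
  have hle : ∀ i, (fs (shear γ f)).coeff i ≠ 0 →
      totalDegree ((fs (shear γ f)).coeff i) + i ≤ D := fun i hi =>
    (totalDegree_coeff_finSuccEquiv_add_le _ i hi).trans (totalDegree_shear_le γ f)
  have hdeg : (fs (shear γ f)).natDegree = D := by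
    apply le_antisymm
    · rw [Polynomial.natDegree_le_iff_coeff_eq_zero]
      intro N hN
      by_contra hne
      have := hle N hne
      omega
    · exact Polynomial.le_natDegree_of_ne_zero hcoeffD
  refine ⟨coeff 0 ((fs (shear γ f)).coeff D), ?_⟩
  rw [Polynomial.leadingCoeff, hdeg]
  apply totalDegree_eq_zero_iff_eq_C.mp
  have := hle D hcoeffD
  omega

end LF
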